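import Pool.Agent.NH62.Greedy.Seq

/-!
# The renorming

`e` is an unconditional basis with coefficient functionals `φ`, with upper democracy estimates
`‖∑_{A} e m‖ ≤ C |A| ^ δ` and `∑_{A} ‖φ m x‖ ≤ C |A| ^ (1 - δ) ‖x‖`, `0 < δ < 1`.
-/

set_option autoImplicit false

namespace Pool.Agent.NH62.Greedy

open Finset Filter Topology

variable {𝕜 : Type*} [RCLike 𝕜] {E : Type*} [NormedAddCommGroup E] [NormedSpace 𝕜 E]

/-- The positive weights `f` with `∑ f m ‖φ m x‖ ≤ ‖x‖`. -/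
def polar (φ : ℕ → E →L[𝕜] 𝕜) : Set (ℕ → ℝ) :=
  {f | (∀ m, 0 ≤ f m) ∧ ∀ (x : E) (t : Finset ℕ), ∑ m ∈ t, f m * ‖φ m x‖ ≤ ‖x‖}

/-- The new norm. -/
noncomputable def nrm (φ : ℕ → E →L[𝕜] 𝕜) (C δ : ℝ) (x : E) : ℝ :=
  sSup {r : ℝ | ∃ S f t, Adm C δ (polar φ) S f ∧
    r = val δ (δ / (3 * C)) S f t (fun m => ‖φ m x‖)}

theorem exists_phase (z : 𝕜) : ∃ θ : 𝕜, ‖θ‖ ≤ 1 ∧ θ * z = (‖z‖ : 𝕜) := by
  by_cases hz : z = 0
  · exact ⟨0, by simp, by simp [hz]⟩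
  · refine ⟨(starRingEnd 𝕜 z) / (‖z‖ : 𝕜), ?_, ?_⟩
    · rw [norm_div, RCLike.norm_conj, RCLike.norm_ofReal, abs_of_nonneg (norm_nonneg _)]
      exact div_self_le_one _
    · have h1 : (‖z‖ : 𝕜) ≠ 0 := by
        rw [Ne, RCLike.ofReal_eq_zero]
        exact norm_ne_zero_iff.2 hz
      rw [div_mul_eq_mul_div, RCLike.conj_mul, div_eq_iff h1, sq]

section facts

variable {e : ℕ → E} {φ : ℕ → E →L[𝕜] 𝕜} {C δ K : ℝ}

theorem coord_sum (hbi : ∀ m k, φ m (e k) = if m = k then 1 else 0) (s : Finset ℕ) (a : ℕ → 𝕜)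
    (m : ℕ) : φ m (∑ k ∈ s, a k • e k) = if m ∈ s then a m else 0 := by
  rw [map_sum]
  simp only [map_smul, hbi, smul_eq_mul, mul_ite, mul_one, mul_zero]
  rw [Finset.sum_ite_eq]

theorem polar_fam (hbi : ∀ m k, φ m (e k) = if m = k then 1 else 0)
    (hD1 : ∀ A : Finset ℕ, ‖∑ m ∈ A, e m‖ ≤ C * (A.card : ℝ) ^ δ) : Fam C δ (polar φ) where
  nonneg f hf := hf.1
  trunc f hf c hc := by
    refine ⟨fun m => le_min (hf.1 m) hc, fun x t => ?_⟩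
    refine (Finset.sum_le_sum (fun m _ => ?_)).trans (hf.2 x t)
    exact mul_le_mul_of_nonneg_right (min_le_left _ _) (norm_nonneg _)
  card f hf D := by
    have h1 := hf.2 (∑ m ∈ D, e m) D
    have h2 : ∑ m ∈ D, f m * ‖φ m (∑ m ∈ D, e m)‖ = ∑ m ∈ D, f m := by
      apply Finset.sum_congr rfl
      intro m hm
      have h3 : ∑ m ∈ D, e m = ∑ m ∈ D, (1 : 𝕜) • e m := by simp
      rw [h3, coord_sum hbi D (fun _ => (1 : 𝕜)) m, if_pos hm, norm_one, mul_one]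
    rw [h2] at h1
    exact h1.trans (hD1 D)

theorem val_add_le (hδ : 0 < δ) (hC : 0 < C) {S t : Finset ℕ} {f : ℕ → ℝ} (hf : ∀ m, 0 ≤ f m)
    (x y : E) : val δ (δ / (3 * C)) S f t (fun m => ‖φ m (x + y)‖) ≤
      val δ (δ / (3 * C)) S f t (fun m => ‖φ m x‖) +
      val δ (δ / (3 * C)) S f t (fun m => ‖φ m y‖) := by
  unfold val
  have h1 : ∑ m ∈ S, ‖φ m (x + y)‖ ≤ ∑ m ∈ S, ‖φ m x‖ + ∑ m ∈ S, ‖φ m y‖ := by
    rw [← Finset.sum_add_distrib]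
    apply Finset.sum_le_sum
    intro m _
    rw [map_add]
    exact norm_add_le _ _
  have h2 : ∑ m ∈ t \ S, f m * ‖φ m (x + y)‖ ≤
      ∑ m ∈ t \ S, f m * ‖φ m x‖ + ∑ m ∈ t \ S, f m * ‖φ m y‖ := by
    rw [← Finset.sum_add_distrib]
    apply Finset.sum_le_sum
    intro m _
    rw [map_add, ← mul_add]
    exact mul_le_mul_of_nonneg_left (norm_add_le _ _) (hf m)
  have h3 : 0 ≤ (S.card : ℝ) ^ (δ - 1) := by positivity
  have h4 : 0 ≤ δ / (3 * C) := by positivity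
  nlinarith [mul_le_mul_of_nonneg_left h1 h3, mul_le_mul_of_nonneg_left h2 h4]

theorem val_smul (S t : Finset ℕ) (f : ℕ → ℝ) (c : 𝕜) (x : E) :
    val δ (δ / (3 * C)) S f t (fun m => ‖φ m (c • x)‖) =
      ‖c‖ * val δ (δ / (3 * C)) S f t (fun m => ‖φ m x‖) := by
  unfold val
  have h1 : ∑ m ∈ S, ‖φ m (c • x)‖ = ‖c‖ * ∑ m ∈ S, ‖φ m x‖ := by
    rw [Finset.mul_sum]
    apply Finset.sum_congr rfl
    intro m _
    rw [map_smul, norm_smul]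
  have h2 : ∑ m ∈ t \ S, f m * ‖φ m (c • x)‖ = ‖c‖ * ∑ m ∈ t \ S, f m * ‖φ m x‖ := by
    rw [Finset.mul_sum]
    apply Finset.sum_congr rfl
    intro m _
    rw [map_smul, norm_smul]
    ring
  rw [h1, h2]
  ring

theorem val_le (hδ : 0 < δ) (hC : 0 < C)
    (hD2 : ∀ (A : Finset ℕ) (x : E), ∑ m ∈ A, ‖φ m x‖ ≤ C * (A.card : ℝ) ^ (1 - δ) * ‖x‖)
    {S t : Finset ℕ} {f : ℕ → ℝ} (hf : f ∈ polar φ) (x : E) :
    val δ (δ / (3 * C)) S f t (fun m => ‖φ m x‖) ≤ (C + δ / (3 * C)) * ‖x‖ := by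
  unfold val
  have h1 := hD2 S x
  have h2 := hf.2 x (t \ S)
  have h4 : 0 ≤ δ / (3 * C) := by positivity
  have h5 : (S.card : ℝ) ^ (δ - 1) * ∑ m ∈ S, ‖φ m x‖ ≤ C * ‖x‖ := by
    rcases Nat.eq_zero_or_pos S.card with hz | hz
    · have : S = ∅ := Finset.card_eq_zero.1 hz
      rw [this]
      simp only [Finset.sum_empty, mul_zero]
      positivity
    · have hz' : (0 : ℝ) < S.card := by exact_mod_cast hz
      have h6 : (S.card : ℝ) ^ (δ - 1) * (S.card : ℝ) ^ (1 - δ) = 1 := by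
        rw [← Real.rpow_add hz']
        simp
      calc (S.card : ℝ) ^ (δ - 1) * ∑ m ∈ S, ‖φ m x‖
          ≤ (S.card : ℝ) ^ (δ - 1) * (C * (S.card : ℝ) ^ (1 - δ) * ‖x‖) :=
            mul_le_mul_of_nonneg_left h1 (by positivity)
        _ = ((S.card : ℝ) ^ (δ - 1) * (S.card : ℝ) ^ (1 - δ)) * (C * ‖x‖) := by ring
        _ = C * ‖x‖ := by rw [h6, one_mul]
  have h7 := mul_le_mul_of_nonneg_left h2 h4
  linarith [h5, h7]

theorem bdd (hδ : 0 < δ) (hC : 0 < C)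
    (hD2 : ∀ (A : Finset ℕ) (x : E), ∑ m ∈ A, ‖φ m x‖ ≤ C * (A.card : ℝ) ^ (1 - δ) * ‖x‖)
    (x : E) : BddAbove {r : ℝ | ∃ S f t, Adm C δ (polar φ) S f ∧
    r = val δ (δ / (3 * C)) S f t (fun m => ‖φ m x‖)} := by
  refine ⟨(C + δ / (3 * C)) * ‖x‖, ?_⟩
  rintro r ⟨S, f, t, hA, rfl⟩
  exact val_le hδ hC hD2 hA.1 x

theorem zero_adm (hC : 0 < C) : Adm C δ (polar φ) ∅ (fun _ => 0) := by
  refine ⟨⟨fun _ => le_rfl, fun x t => ?_⟩, fun m => ?_⟩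
  · simp
  · positivity

theorem nonemp (hC : 0 < C) (x : E) : {r : ℝ | ∃ S f t, Adm C δ (polar φ) S f ∧
    r = val δ (δ / (3 * C)) S f t (fun m => ‖φ m x‖)}.Nonempty :=
  ⟨_, ∅, fun _ => 0, ∅, zero_adm hC, rfl⟩

theorem val_le_nrm (hδ : 0 < δ) (hC : 0 < C)
    (hD2 : ∀ (A : Finset ℕ) (x : E), ∑ m ∈ A, ‖φ m x‖ ≤ C * (A.card : ℝ) ^ (1 - δ) * ‖x‖)
    (x : E) {S t : Finset ℕ} {f : ℕ → ℝ} (hA : Adm C δ (polar φ) S f) :
    val δ (δ / (3 * C)) S f t (fun m => ‖φ m x‖) ≤ nrm φ C δ x :=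
  le_csSup (bdd hδ hC hD2 x) ⟨S, f, t, hA, rfl⟩

theorem nrm_le_of (hC : 0 < C) (x : E) {r : ℝ}
    (h : ∀ S f t, Adm C δ (polar φ) S f → val δ (δ / (3 * C)) S f t (fun m => ‖φ m x‖) ≤ r) :
    nrm φ C δ x ≤ r := by
  apply csSup_le (nonemp hC x)
  rintro _ ⟨S, f, t, hA, rfl⟩
  exact h S f t hA

theorem nrm_add (hδ : 0 < δ) (hC : 0 < C)
    (hD2 : ∀ (A : Finset ℕ) (x : E), ∑ m ∈ A, ‖φ m x‖ ≤ C * (A.card : ℝ) ^ (1 - δ) * ‖x‖)
    (x y : E) : nrm φ C δ (x + y) ≤ nrm φ C δ x + nrm φ C δ y := by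
  apply nrm_le_of hC
  intro S f t hA
  exact (val_add_le hδ hC hA.1.1 x y).trans
    (add_le_add (val_le_nrm hδ hC hD2 x hA) (val_le_nrm hδ hC hD2 y hA))

theorem nrm_smul_le (hδ : 0 < δ) (hC : 0 < C)
    (hD2 : ∀ (A : Finset ℕ) (x : E), ∑ m ∈ A, ‖φ m x‖ ≤ C * (A.card : ℝ) ^ (1 - δ) * ‖x‖)
    (c : 𝕜) (x : E) : nrm φ C δ (c • x) ≤ ‖c‖ * nrm φ C δ x := by
  apply nrm_le_of hC
  intro S f t hA
  rw [val_smul]
  exact mul_le_mul_of_nonneg_left (val_le_nrm hδ hC hD2 x hA) (norm_nonneg _)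

theorem nrm_le (hδ : 0 < δ) (hC : 0 < C)
    (hD2 : ∀ (A : Finset ℕ) (x : E), ∑ m ∈ A, ‖φ m x‖ ≤ C * (A.card : ℝ) ^ (1 - δ) * ‖x‖)
    (x : E) : nrm φ C δ x ≤ (C + δ / (3 * C)) * ‖x‖ := by
  apply nrm_le_of hC
  intro S f t hA
  exact val_le hδ hC hD2 hA.1 x

theorem le_nrm (hδ : 0 < δ) (hC : 0 < C) (hK : 0 < K)
    (hbi : ∀ m k, φ m (e k) = if m = k then 1 else 0)
    (hU : ∀ (x : E) (t : Finset ℕ) (θ : ℕ → 𝕜), (∀ m ∈ t, ‖θ m‖ ≤ 1) →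
      ‖∑ m ∈ t, θ m • (φ m x • e m)‖ ≤ K * ‖x‖)
    (hR : ∀ x : E, HasSum (fun m => φ m x • e m) x)
    (hD1 : ∀ A : Finset ℕ, ‖∑ m ∈ A, e m‖ ≤ C * (A.card : ℝ) ^ δ)
    (hD2 : ∀ (A : Finset ℕ) (x : E), ∑ m ∈ A, ‖φ m x‖ ≤ C * (A.card : ℝ) ^ (1 - δ) * ‖x‖)
    (x : E) : δ / (3 * C) / K * ‖x‖ ≤ nrm φ C δ x := by
  obtain ⟨ψ, hψ1, hψx⟩ := exists_dual_vector'' 𝕜 x
  set f : ℕ → ℝ := fun m => ‖ψ (e m)‖ / K with hf
  have hfpol : f ∈ polar φ := by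
    refine ⟨fun m => by positivity, fun y t => ?_⟩
    choose θ hθ1 hθ2 using fun m => exists_phase (ψ (φ m y • e m))
    have h1 : ∑ m ∈ t, f m * ‖φ m y‖ = (∑ m ∈ t, ‖ψ (φ m y • e m)‖) / K := by
      rw [Finset.sum_div]
      apply Finset.sum_congr rfl
      intro m _
      rw [hf, map_smul, norm_smul]
      ring
    have h2 : ((∑ m ∈ t, ‖ψ (φ m y • e m)‖ : ℝ) : 𝕜) = ψ (∑ m ∈ t, θ m • (φ m y • e m)) := by
      rw [map_sum, RCLike.ofReal_sum]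
      apply Finset.sum_congr rfl
      intro m _
      rw [ψ.map_smul (θ m), smul_eq_mul, hθ2]
    have h3 : ∑ m ∈ t, ‖ψ (φ m y • e m)‖ ≤ K * ‖y‖ := by
      have h4 : ‖((∑ m ∈ t, ‖ψ (φ m y • e m)‖ : ℝ) : 𝕜)‖ ≤ K * ‖y‖ := by
        rw [h2]
        refine (ψ.le_opNorm _).trans ?_
        calc ‖ψ‖ * ‖∑ m ∈ t, θ m • (φ m y • e m)‖ ≤ 1 * (K * ‖y‖) :=
              mul_le_mul hψ1 (hU y t θ (fun m _ => hθ1 m)) (norm_nonneg _) zero_le_one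
          _ = K * ‖y‖ := one_mul _
      rw [RCLike.norm_ofReal] at h4
      exact (le_abs_self _).trans h4
    rw [h1, div_le_iff₀ hK]
    linarith
  have hadm : Adm C δ (polar φ) ∅ f := by
    refine ⟨hfpol, fun m => ?_⟩
    have h1 := hfpol.2 (e m) {m}
    rw [Finset.sum_singleton, hbi, if_pos rfl, norm_one, mul_one] at h1
    have h2 := hD1 {m}
    rw [Finset.sum_singleton, Finset.card_singleton, Nat.cast_one, Real.one_rpow, mul_one] at h2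
    rw [Finset.card_empty, Nat.cast_zero, zero_add, Real.one_rpow, mul_one]
    exact h1.trans h2
  have hval : ∀ t : Finset ℕ, δ / (3 * C) / K * ‖ψ (∑ m ∈ t, φ m x • e m)‖ ≤ nrm φ C δ x := by
    intro t
    refine le_trans ?_ (val_le_nrm hδ hC hD2 x (t := t) hadm)
    unfold val
    rw [Finset.sum_empty, mul_zero, zero_add, Finset.sdiff_empty]
    have h1 : ‖ψ (∑ m ∈ t, φ m x • e m)‖ ≤ ∑ m ∈ t, ‖ψ (e m)‖ * ‖φ m x‖ := by
      rw [map_sum]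
      refine (norm_sum_le _ _).trans (le_of_eq ?_)
      apply Finset.sum_congr rfl
      intro m _
      rw [map_smul, norm_smul, mul_comm]
    have h2 : ∑ m ∈ t, f m * ‖φ m x‖ = (∑ m ∈ t, ‖ψ (e m)‖ * ‖φ m x‖) / K := by
      rw [Finset.sum_div]
      apply Finset.sum_congr rfl
      intro m _
      rw [hf]
      ring
    rw [h2, div_mul_eq_mul_div, mul_div_assoc]
    apply mul_le_mul_of_nonneg_left _ (by positivity)
    gcongr
  have hlim : Tendsto (fun t : Finset ℕ => δ / (3 * C) / K * ‖ψ (∑ m ∈ t, φ m x • e m)‖) atTop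
      (𝓝 (δ / (3 * C) / K * ‖ψ x‖)) := by
    apply Tendsto.const_mul
    apply Tendsto.norm
    have h1 : Tendsto (fun t : Finset ℕ => ∑ m ∈ t, φ m x • e m) atTop (𝓝 x) := hR x
    exact (ψ.continuous.tendsto x).comp h1
  have h3 := le_of_tendsto hlim (Eventually.of_forall hval)
  rw [hψx, RCLike.norm_ofReal, abs_of_nonneg (norm_nonneg _)] at h3
  exact h3

/-- The greedy property. -/
theorem greedy (hδ : 0 < δ) (hδ1 : δ < 1) (hC : 0 < C)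
    (hbi : ∀ m k, φ m (e k) = if m = k then 1 else 0)
    (hD1 : ∀ A : Finset ℕ, ‖∑ m ∈ A, e m‖ ≤ C * (A.card : ℝ) ^ δ)
    (hD2 : ∀ (A : Finset ℕ) (x : E), ∑ m ∈ A, ‖φ m x‖ ≤ C * (A.card : ℝ) ^ (1 - δ) * ‖x‖)
    (x : E) (A : Finset ℕ) (hA : ∀ i ∈ A, ∀ j, j ∉ A → ‖φ j x‖ ≤ ‖φ i x‖) (B : Finset ℕ)
    (b : ℕ → 𝕜) (hB : B.card ≤ A.card) :
    nrm φ C δ (x - ∑ j ∈ A, φ j x • e j) ≤ nrm φ C δ (x - ∑ j ∈ B, b j • e j) := by
  classical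
  rcases A.eq_empty_or_nonempty with hAe | hAne
  · have hBe : B = ∅ := by
      rw [← Finset.card_eq_zero]
      rw [hAe, Finset.card_empty] at hB
      omega
    rw [hAe, hBe]
    simp
  obtain ⟨a0, ha0, hmin⟩ := Finset.exists_min_image A (fun j => ‖φ j x‖) hAne
  set τ := ‖φ a0 x‖ with hτ
  have hτ0 : 0 ≤ τ := norm_nonneg _
  have hout : ∀ j, j ∉ A → ‖φ j x‖ ≤ τ := fun j hj => hA a0 ha0 j hj
  set u : ℕ → ℝ := fun m => ‖φ m (x - ∑ j ∈ A, φ j x • e j)‖ with hu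
  set v : ℕ → ℝ := fun m => ‖φ m (x - ∑ j ∈ B, b j • e j)‖ with hv
  have hu_in : ∀ m ∈ A, u m = 0 := by
    intro m hm
    simp only [hu]
    rw [map_sub, coord_sum hbi A (fun j => φ j x) m, if_pos hm, sub_self, norm_zero]
  have hu_out : ∀ m, m ∉ A → u m = ‖φ m x‖ := by
    intro m hm
    simp only [hu]
    rw [map_sub, coord_sum hbi A (fun j => φ j x) m, if_neg hm, sub_zero]
  have hv_out : ∀ m, m ∉ B → v m = ‖φ m x‖ := by
    intro m hm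
    simp only [hv]
    rw [map_sub, coord_sum hbi B b m, if_neg hm, sub_zero]
  have hv0 : ∀ m, 0 ≤ v m := fun m => norm_nonneg _
  set u' : ℕ → ℝ := fun m => if m ∈ B \ A then τ else u m with hu'
  apply nrm_le_of hC
  intro S f t hadm
  have hF := polar_fam hbi hD1
  have hle : ∀ m, u m ≤ u' m := by
    intro m
    simp only [hu']
    split_ifs with h
    · rw [hu_out m (Finset.mem_sdiff.1 h).2]
      exact hout m (Finset.mem_sdiff.1 h).2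
    · exact le_rfl
  have h1 : val δ (δ / (3 * C)) S f t u ≤ val δ (δ / (3 * C)) S f t u' :=
    val_mono hδ hC hF S t hadm.1 hle
  have hcard : (B \ A).card ≤ (A \ B).card := by
    have e1 := Finset.card_sdiff_add_card_inter B A
    have e2 := Finset.card_sdiff_add_card_inter A B
    rw [Finset.inter_comm] at e1
    omega
  obtain ⟨S', f', hadm', h2⟩ := exchange hC hδ hδ1 hF t (u := u') (v := v) (τ := τ)
    (by
      intro m
      simp only [hu']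
      split_ifs
      · exact hτ0
      · exact norm_nonneg _) hv0
    (by
      intro m
      simp only [hu']
      split_ifs with h
      · exact le_rfl
      · by_cases hm : m ∈ A
        · rw [hu_in m hm]; exact hτ0
        · rw [hu_out m hm]; exact hout m hm)
    (A \ B) (B \ A) hcard
    (by
      intro m hm
      simp only [hu']
      rw [if_pos hm])
    (by
      intro m hm
      simp only [hu']
      rw [if_neg (fun h => (Finset.mem_sdiff.1 h).2 (Finset.mem_sdiff.1 hm).1), hu_in m (Finset.mem_sdiff.1 hm).1])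
    (by
      intro m hm
      rw [hv_out m (Finset.mem_sdiff.1 hm).2]
      exact hmin m (Finset.mem_sdiff.1 hm).1)
    (by
      intro m hm
      simp only [hu']
      rw [if_neg hm]
      by_cases hmA : m ∈ A
      · rw [hu_in m hmA]; exact hv0 m
      · have hmB : m ∉ B := fun h => hm (Finset.mem_sdiff.2 ⟨h, hmA⟩)
        rw [hu_out m hmA, hv_out m hmB])
    hadm
  exact h1.trans (h2.trans (val_le_nrm hδ hC hD2 _ hadm'))

end facts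

/-- Summary: an unconditional basis with power type upper democracy estimates for the basis and its
coefficient functionals is `1`-greedy for an equivalent norm. -/
theorem renorming {e : ℕ → E} {φ : ℕ → E →L[𝕜] 𝕜} {C δ K : ℝ}
    (hδ : 0 < δ) (hδ1 : δ < 1) (hC : 0 < C) (hK : 0 < K)
    (hbi : ∀ m k, φ m (e k) = if m = k then 1 else 0)
    (hU : ∀ (x : E) (t : Finset ℕ) (θ : ℕ → 𝕜), (∀ m ∈ t, ‖θ m‖ ≤ 1) →
      ‖∑ m ∈ t, θ m • (φ m x • e m)‖ ≤ K * ‖x‖)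
    (hR : ∀ x : E, HasSum (fun m => φ m x • e m) x)
    (hD1 : ∀ A : Finset ℕ, ‖∑ m ∈ A, e m‖ ≤ C * (A.card : ℝ) ^ δ)
    (hD2 : ∀ (A : Finset ℕ) (x : E), ∑ m ∈ A, ‖φ m x‖ ≤ C * (A.card : ℝ) ^ (1 - δ) * ‖x‖) :
    ∃ N : E → ℝ, (∀ x y, N (x + y) ≤ N x + N y) ∧ (∀ (c : 𝕜) x, N (c • x) = ‖c‖ * N x) ∧
      (∃ a b : ℝ, 0 < a ∧ ∀ x, a * ‖x‖ ≤ N x ∧ N x ≤ b * ‖x‖) ∧
      ∀ (x : E) (A : Finset ℕ), (∀ i ∈ A, ∀ j, j ∉ A → ‖φ j x‖ ≤ ‖φ i x‖) →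
        ∀ (B : Finset ℕ) (b : ℕ → 𝕜), B.card ≤ A.card →
          N (x - ∑ j ∈ A, φ j x • e j) ≤ N (x - ∑ j ∈ B, b j • e j) := by
  refine ⟨nrm φ C δ, nrm_add hδ hC hD2, ?_, ⟨δ / (3 * C) / K, C + δ / (3 * C), by positivity,
    fun x => ⟨le_nrm hδ hC hK hbi hU hR hD1 hD2 x, nrm_le hδ hC hD2 x⟩⟩,
    fun x A hA B b hB => greedy hδ hδ1 hC hbi hD1 hD2 x A hA B b hB⟩
  intro c x
  apply le_antisymm (nrm_smul_le hδ hC hD2 c x)
  by_cases hc : c = 0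
  · rw [hc, zero_smul, norm_zero, zero_mul]
    have := le_nrm hδ hC hK hbi hU hR hD1 hD2 (0 : E)
    rw [norm_zero, mul_zero] at this
    exact this
  · have h1 := nrm_smul_le hδ hC hD2 c⁻¹ (c • x)
    rw [smul_smul, inv_mul_cancel₀ hc, one_smul, norm_inv] at h1
    have hcn : 0 < ‖c‖ := norm_pos_iff.2 hc
    calc ‖c‖ * nrm φ C δ x ≤ ‖c‖ * (‖c‖⁻¹ * nrm φ C δ (c • x)) :=
          mul_le_mul_of_nonneg_left h1 hcn.le
      _ = nrm φ C δ (c • x) := by field_simp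

end Pool.Agent.NH62.Greedy
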