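import Pool.Agent.H75R3.HaarBasis
import Pool.Agent.NH62.Greedy.Abs

/-!
# Democracy estimates for the Haar system
-/

set_option autoImplicit false
set_option linter.unusedSectionVars false

namespace Pool.Agent.NH62.Greedy

open Finset MeasureTheory Filter Topology H75R3
open scoped ENNReal

theorem sum_L_norm (n : ℕ) (a : ℕ → ℝ) (t : ℝ) :
    ∑ m ∈ L n, a m * ‖hr m t‖ = a (nd n t) := by
  rw [Finset.sum_eq_single (nd n t)]
  · rw [norm_hr_nd, mul_one]
  · intro m hm hne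
    rw [hr_L hm, if_neg (Ne.symm hne), norm_zero, mul_zero]
  · intro h
    exact absurd (nd_mem n t) h

theorem sum_norm_hr (N : ℕ) (a : ℕ → ℝ) (t : ℝ) :
    ∑ m ∈ range (2 ^ N), a m * ‖hr m t‖ = a 0 + ∑ n ∈ range N, a (nd n t) := by
  induction N with
  | zero =>
    rw [pow_zero, Finset.sum_range_one, hr_zero, norm_one, mul_one, Finset.sum_range_zero, add_zero]
  | succ N ih =>
    rw [sum_range_two_pow_succ, ih, sum_L_norm, Finset.sum_range_succ, add_assoc]

/-- The constant. -/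
noncomputable def cst (r : ℝ) : ℝ := 1 + (2 : ℝ) ^ (1 / r) / ((2 : ℝ) ^ (1 / r) - 1)

theorem rho_gt {r : ℝ} (hr : 0 < r) : 1 < (2 : ℝ) ^ (1 / r) :=
  Real.one_lt_rpow one_lt_two (by positivity)

theorem one_le_cst {r : ℝ} (hr : 0 < r) : 1 ≤ cst r := by
  have h := rho_gt hr
  unfold cst
  have : 0 ≤ (2 : ℝ) ^ (1 / r) / ((2 : ℝ) ^ (1 / r) - 1) := by
    apply div_nonneg <;> linarith
  linarith

/-- Sums of lacunary sequences. -/
theorem lacunary {r : ℝ} (hr : 0 < r) (N : ℕ) (x0 : ℝ) (x : ℕ → ℝ)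
    (h0 : x0 = 0 ∨ x0 = 1) (hx : ∀ n, x n = 0 ∨ x n = ((2 : ℝ) ^ n) ^ (1 / r)) :
    (x0 + ∑ n ∈ range N, x n) ^ r ≤ cst r ^ r * (x0 ^ r + ∑ n ∈ range N, x n ^ r) := by
  have hρ := rho_gt hr
  set ρ := (2 : ℝ) ^ (1 / r) with hρd
  have hc := one_le_cst hr
  have hpow : ∀ n : ℕ, ((2 : ℝ) ^ n) ^ (1 / r) = ρ ^ n := by
    intro n
    rw [hρd, ← Real.rpow_natCast, ← Real.rpow_natCast, ← Real.rpow_mul (by norm_num),
      ← Real.rpow_mul (by norm_num), mul_comm]
  have hx0 : ∀ n, 0 ≤ x n := by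
    intro n
    rcases hx n with h | h <;> rw [h]
    positivity
  have hxle : ∀ n, x n ≤ ρ ^ n := by
    intro n
    rcases hx n with h | h <;> rw [h]
    · positivity
    · rw [hpow]
  have hx00 : 0 ≤ x0 := by rcases h0 with h | h <;> rw [h]; norm_num
  have hx01 : x0 ≤ 1 := by rcases h0 with h | h <;> rw [h]; norm_num
  have hcr : 1 ≤ cst r ^ r := Real.one_le_rpow hc hr.le
  induction N with
  | zero =>
    simp only [Finset.range_zero, Finset.sum_empty, add_zero]
    have : 0 ≤ x0 ^ r := Real.rpow_nonneg hx00 _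
    nlinarith
  | succ N ih =>
    rcases hx N with h | h
    · rw [Finset.sum_range_succ, Finset.sum_range_succ, h, Real.zero_rpow hr.ne', add_zero, add_zero]
      exact ih
    · have h1 : ∑ n ∈ range (N + 1), x n ≤ ρ ^ N * (ρ / (ρ - 1)) := by
        calc ∑ n ∈ range (N + 1), x n ≤ ∑ n ∈ range (N + 1), ρ ^ n :=
              Finset.sum_le_sum (fun n _ => hxle n)
          _ = (ρ ^ (N + 1) - 1) / (ρ - 1) := geom_sum_eq hρ.ne' _
          _ ≤ ρ ^ (N + 1) / (ρ - 1) := by
              apply div_le_div_of_nonneg_right (by linarith) (by linarith)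
          _ = ρ ^ N * (ρ / (ρ - 1)) := by rw [pow_succ]; ring
      have h2 : x0 + ∑ n ∈ range (N + 1), x n ≤ cst r * ρ ^ N := by
        have h3 : 1 ≤ ρ ^ N := one_le_pow₀ hρ.le
        have h4 : cst r = 1 + ρ / (ρ - 1) := rfl
        rw [h4]
        linarith
      have hs0 : 0 ≤ ∑ n ∈ range (N + 1), x n := Finset.sum_nonneg (fun n _ => hx0 n)
      have h5 : (x0 + ∑ n ∈ range (N + 1), x n) ^ r ≤ (cst r * ρ ^ N) ^ r :=
        Real.rpow_le_rpow (by linarith) h2 hr.le
      have h6 : (cst r * ρ ^ N) ^ r = cst r ^ r * x N ^ r := by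
        rw [Real.mul_rpow (by linarith) (by positivity), h, hpow]
      rw [h6] at h5
      refine h5.trans ?_
      apply mul_le_mul_of_nonneg_left _ (by positivity)
      rw [Finset.sum_range_succ]
      have h7 : 0 ≤ ∑ n ∈ range N, x n ^ r :=
        Finset.sum_nonneg (fun n _ => Real.rpow_nonneg (hx0 n) _)
      have h8 : 0 ≤ x0 ^ r := Real.rpow_nonneg hx00 _
      linarith

theorem wt_nd (n : ℕ) (t : ℝ) : wt (nd n t) = 2 ^ n := by
  have h := nd_mem n t
  have h1 := L_pos h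
  unfold wt
  rw [if_neg (by omega), log_L h]

theorem wt_zero : wt 0 = 1 := by simp [wt]

theorem wt_pos (m : ℕ) : 0 < wt m := by
  unfold wt
  split_ifs <;> positivity

/-- Pointwise estimate. -/
theorem pointwise {r : ℝ} (hr0 : 0 < r) (A : Finset ℕ) (t : ℝ) :
    (∑ m ∈ A, wt m ^ (1 / r) * ‖hr m t‖) ^ r ≤ cst r ^ r * ∑ m ∈ A, wt m * ‖hr m t‖ := by
  classical
  obtain ⟨N, hN⟩ : ∃ N, A ⊆ range (2 ^ N) := by
    obtain ⟨M, hM⟩ := A.exists_nat_subset_range
    exact ⟨M, hM.trans (Finset.range_subset_range.2 Nat.lt_two_pow_self.le)⟩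
  have key : ∀ w : ℕ → ℝ, ∑ m ∈ A, w m * ‖hr m t‖ =
      (if 0 ∈ A then w 0 else 0) + ∑ n ∈ range N, (if nd n t ∈ A then w (nd n t) else 0) := by
    intro w
    rw [← sum_norm_hr N (fun m => if m ∈ A then w m else 0) t]
    have h1 : ∀ m, (if m ∈ A then w m else 0) * ‖hr m t‖ = if m ∈ A then w m * ‖hr m t‖ else 0 := by
      intro m
      split_ifs <;> simp
    rw [Finset.sum_congr rfl (fun m _ => h1 m), ← Finset.sum_filter, Finset.filter_mem_eq_inter,
      Finset.inter_eq_right.2 hN]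
  rw [key, key]
  have h2 := lacunary hr0 N (if 0 ∈ A then wt 0 ^ (1 / r) else 0)
    (fun n => if nd n t ∈ A then wt (nd n t) ^ (1 / r) else 0)
    (by
      split_ifs
      · right; rw [wt_zero, Real.one_rpow]
      · left; rfl)
    (by
      intro n
      split_ifs
      · right; rw [wt_nd]
      · left; rfl)
  refine h2.trans (le_of_eq ?_)
  congr 1
  congr 1
  · split_ifs
    · rw [← Real.rpow_mul (wt_pos 0).le, one_div, inv_mul_cancel₀ hr0.ne', Real.rpow_one]
    · rw [Real.zero_rpow hr0.ne']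
  · apply Finset.sum_congr rfl
    intro n _
    split_ifs
    · rw [← Real.rpow_mul (wt_pos _).le, one_div, inv_mul_cancel₀ hr0.ne', Real.rpow_one]
    · rw [Real.zero_rpow hr0.ne']

section space

variable {X : Type*} [MeasurableSpace X] {μ : Measure X} [IsProbabilityMeasure μ]
  {g : X → ℝ} {p : ℝ≥0∞} [hp1 : Fact (1 ≤ p)]

theorem int_norm_hr (hg : MeasurePreserving g μ (volume.restrict (Set.Ico (0:ℝ) 1))) (m : ℕ) :
    ∫ x, wt m * ‖hr m (g x)‖ ∂μ = 1 := by
  rcases Nat.eq_zero_or_pos m with h0 | h0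
  · subst h0
    simp [wt_zero, hr_zero]
  · have hmL : m ∈ L (Nat.log 2 m) := by
      rw [mem_L]
      exact ⟨Nat.pow_log_le_self 2 (by omega), Nat.lt_pow_succ_log_self (by norm_num) m⟩
    have h1 : ∀ x, wt m * ‖hr m (g x)‖ =
        (fun j => if j = m then wt m else 0) (nd (Nat.log 2 m) (g x)) := by
      intro x
      rw [hr_L hmL]
      simp only
      split_ifs <;> simp
    have h2 := integral_nd hg (Nat.log 2 m) (fun j => if j = m then wt m else 0)
    rw [integral_congr_ae (Eventually.of_forall h1)]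
    refine h2.trans ?_
    rw [Finset.sum_ite_eq', if_pos hmL]
    unfold wt
    rw [if_neg (by omega), smul_eq_mul]
    exact inv_mul_cancel₀ (by positivity)

theorem integrable_norm_hr (hg : MeasurePreserving g μ (volume.restrict (Set.Ico (0:ℝ) 1)))
    (m : ℕ) (c : ℝ) : Integrable (fun x => c * ‖hr m (g x)‖) μ := by
  apply Integrable.const_mul
  apply Integrable.norm
  apply Integrable.of_bound (C := 1) ((hr_meas m).comp hg.measurable).aestronglyMeasurable
  exact Eventually.of_forall fun x => norm_hr_le m (g x)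

/-- The basic estimate: `∫ |∑_{m ∈ A} c_m wt(m)^{1/r} h_m|^r ≤ K |A|`, `|c_m| ≤ 1`. -/
theorem int_pow (hg : MeasurePreserving g μ (volume.restrict (Set.Ico (0:ℝ) 1))) {r : ℝ}
    (hr0 : 0 < r) (A : Finset ℕ) (c : ℕ → ℂ) (hc : ∀ m, ‖c m‖ ≤ wt m ^ (1 / r)) :
    ∫ x, ‖∑ m ∈ A, c m * hr m (g x)‖ ^ r ∂μ ≤ cst r ^ r * A.card := by
  have h1 : ∀ x, ‖∑ m ∈ A, c m * hr m (g x)‖ ^ r ≤
      cst r ^ r * ∑ m ∈ A, wt m * ‖hr m (g x)‖ := by
    intro x
    refine le_trans ?_ (pointwise hr0 A (g x))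
    apply Real.rpow_le_rpow (norm_nonneg _) _ hr0.le
    refine (norm_sum_le _ _).trans ?_
    apply Finset.sum_le_sum
    intro m _
    rw [norm_mul]
    exact mul_le_mul_of_nonneg_right (hc m) (norm_nonneg _)
  have hint : Integrable (fun x => cst r ^ r * ∑ m ∈ A, wt m * ‖hr m (g x)‖) μ := by
    apply Integrable.const_mul
    apply integrable_finsetSum
    intro m _
    exact integrable_norm_hr hg m _
  have h2 : ∫ x, cst r ^ r * ∑ m ∈ A, wt m * ‖hr m (g x)‖ ∂μ = cst r ^ r * A.card := by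
    rw [integral_const_mul, integral_finsetSum _ (fun m _ => integrable_norm_hr hg m _)]
    simp only [int_norm_hr hg]
    simp
  rw [← h2]
  apply integral_mono_of_nonneg
  · exact Eventually.of_forall fun x => Real.rpow_nonneg (norm_nonneg _) _
  · exact hint
  · exact Eventually.of_forall h1

/-- The `L^p`-normalised Haar functions. -/
noncomputable def hn (μ : Measure X) [IsProbabilityMeasure μ] (p : ℝ≥0∞) [hp1 : Fact (1 ≤ p)]
    (hgm : Measurable g) (m : ℕ) : Lp ℂ p μ := ((wt m ^ (1 / p.toReal) : ℝ) : ℂ) • eh μ p hgm m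

/-- Their coefficient functionals. -/
noncomputable def pn (μ : Measure X) [IsProbabilityMeasure μ] (p : ℝ≥0∞) [hp1 : Fact (1 ≤ p)]
    (hgm : Measurable g) (m : ℕ) : Lp ℂ p μ →L[ℂ] ℂ :=
  (((wt m ^ (1 / p.toReal))⁻¹ : ℝ) : ℂ) • ph μ p hgm m

theorem pn_hn (hg : MeasurePreserving g μ (volume.restrict (Set.Ico (0:ℝ) 1))) (m k : ℕ) :
    pn μ p hg.measurable m (hn μ p hg.measurable k) = if m = k then 1 else 0 := by
  unfold pn hn
  rw [ContinuousLinearMap.smul_apply, map_smul, ph_eh hg]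
  split_ifs with h
  · subst h
    have h1 : wt m ^ (1 / p.toReal) ≠ 0 := (Real.rpow_pos_of_pos (wt_pos m) _).ne'
    rw [smul_eq_mul, smul_eq_mul, mul_one, ← Complex.ofReal_mul, inv_mul_cancel₀ h1,
      Complex.ofReal_one]
  · simp

theorem pn_smul_hn (hgm : Measurable g) (m : ℕ) (x : Lp ℂ p μ) :
    pn μ p hgm m x • hn μ p hgm m = ph μ p hgm m x • eh μ p hgm m := by
  unfold pn hn
  have h1 : wt m ^ (1 / p.toReal) ≠ 0 := (Real.rpow_pos_of_pos (wt_pos m) _).ne'
  rw [ContinuousLinearMap.smul_apply, smul_eq_mul, smul_smul]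
  congr 1
  have h2 : (((wt m ^ (1 / p.toReal))⁻¹ : ℝ) : ℂ) * ((wt m ^ (1 / p.toReal) : ℝ) : ℂ) = 1 := by
    rw [← Complex.ofReal_mul, inv_mul_cancel₀ h1, Complex.ofReal_one]
  rw [mul_right_comm, h2, one_mul]

/-- Upper democracy. -/
theorem demo (hg : MeasurePreserving g μ (volume.restrict (Set.Ico (0:ℝ) 1))) (hpt : p ≠ ∞)
    (A : Finset ℕ) : ‖∑ m ∈ A, hn μ p hg.measurable m‖ ≤
      cst p.toReal * (A.card : ℝ) ^ (1 / p.toReal) := by
  have hp0 : 0 < p.toReal := by
    apply ENNReal.toReal_pos _ hpt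
    intro h0
    have := hp1.out
    rw [h0] at this
    simp at this
  have h1 : ∀ᵐ x ∂μ, (∑ m ∈ A, hn μ p hg.measurable m) x =
      ∑ m ∈ A, ((wt m ^ (1 / p.toReal) : ℝ) : ℂ) * hr m (g x) := by
    exact sum_eh_coe (μ := μ) (p := p) hg.measurable A (fun m => ((wt m ^ (1 / p.toReal) : ℝ) : ℂ))
  rw [norm_Lp_eq hpt _ _ h1]
  have h2 := int_pow hg hp0 A (fun m => ((wt m ^ (1 / p.toReal) : ℝ) : ℂ)) (by
    intro m
    rw [Complex.norm_real, Real.norm_of_nonneg (Real.rpow_nonneg (wt_pos m).le _)])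
  have h3 := one_le_cst hp0
  calc (∫ x, ‖∑ m ∈ A, ((wt m ^ (1 / p.toReal) : ℝ) : ℂ) * hr m (g x)‖ ^ p.toReal ∂μ) ^
        (1 / p.toReal) ≤ (cst p.toReal ^ p.toReal * A.card) ^ (1 / p.toReal) := by
        apply Real.rpow_le_rpow _ h2 (by positivity)
        exact integral_nonneg fun x => Real.rpow_nonneg (norm_nonneg _) _
    _ = cst p.toReal * (A.card : ℝ) ^ (1 / p.toReal) := by
        rw [Real.mul_rpow (by positivity) (by positivity), ← Real.rpow_mul (by linarith),
          mul_one_div_cancel hp0.ne', Real.rpow_one]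

theorem pn_eq (hgm : Measurable g) {q : ℝ} (hpq : p.toReal.HolderConjugate q) (m : ℕ)
    (f : Lp ℂ p μ) : pn μ p hgm m f = ((wt m ^ (1 / q) : ℝ) : ℂ) * ∫ x, f x * hr m (g x) ∂μ := by
  unfold pn
  rw [ContinuousLinearMap.smul_apply, ph_apply, smul_eq_mul, ← mul_assoc, ← Complex.ofReal_mul]
  congr 2
  have h1 : 1 / q = 1 - 1 / p.toReal := by
    have := hpq.inv_add_inv_eq_one
    rw [one_div, one_div]
    linarith
  rw [h1, Real.rpow_sub (wt_pos m), Real.rpow_one]
  field_simp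

/-- Upper democracy for the coefficient functionals. -/
theorem demo_dual (hg : MeasurePreserving g μ (volume.restrict (Set.Ico (0:ℝ) 1))) (hpt : p ≠ ∞)
    {q : ℝ} (hpq : p.toReal.HolderConjugate q) (A : Finset ℕ) (f : Lp ℂ p μ) :
    ∑ m ∈ A, ‖pn μ p hg.measurable m f‖ ≤ cst q * (A.card : ℝ) ^ (1 / q) * ‖f‖ := by
  have hp0 : 0 < p.toReal := hpq.pos
  have hq0 : 0 < q := hpq.symm.pos
  choose θ hθ1 hθ2 using fun m => exists_phase (𝕜 := ℂ) (pn μ p hg.measurable m f)
  set c : ℕ → ℂ := fun m => θ m * ((wt m ^ (1 / q) : ℝ) : ℂ) with hcdef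
  have hc : ∀ m, ‖c m‖ ≤ wt m ^ (1 / q) := by
    intro m
    simp only [hcdef]
    rw [norm_mul, Complex.norm_real, Real.norm_of_nonneg (Real.rpow_nonneg (wt_pos m).le _)]
    calc ‖θ m‖ * wt m ^ (1 / q) ≤ 1 * wt m ^ (1 / q) :=
          mul_le_mul_of_nonneg_right (hθ1 m) (Real.rpow_nonneg (wt_pos m).le _)
      _ = _ := one_mul _
  set G : X → ℂ := fun x => ∑ m ∈ A, c m * hr m (g x) with hG
  have hGmeas : Measurable G := by
    apply Finset.measurable_sum
    intro m _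
    exact ((hr_meas m).comp hg.measurable).const_mul _
  have hGb : ∀ x, ‖G x‖ ≤ ∑ m ∈ A, ‖c m‖ := by
    intro x
    refine (norm_sum_le _ _).trans (Finset.sum_le_sum fun m _ => ?_)
    rw [norm_mul]
    calc ‖c m‖ * ‖hr m (g x)‖ ≤ ‖c m‖ * 1 :=
          mul_le_mul_of_nonneg_left (norm_hr_le m _) (norm_nonneg _)
      _ = ‖c m‖ := mul_one _
  have h1 : ((∑ m ∈ A, ‖pn μ p hg.measurable m f‖ : ℝ) : ℂ) = ∫ x, f x * G x ∂μ := by
    have e1 : ∫ x, f x * G x ∂μ = ∑ m ∈ A, ∫ x, c m * (f x * hr m (g x)) ∂μ := by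
      rw [← integral_finsetSum]
      · apply integral_congr_ae
        apply Eventually.of_forall
        intro x
        simp only [hG]
        rw [Finset.mul_sum]
        apply Finset.sum_congr rfl
        intro m _
        ring
      · intro m _
        apply Integrable.const_mul
        exact integrable_mul_bdd f _ ((hr_meas m).comp hg.measurable).aestronglyMeasurable
          (fun x => norm_hr_le m (g x))
    rw [e1, Complex.ofReal_sum]
    apply Finset.sum_congr rfl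
    intro m _
    have e2 : (‖pn μ p hg.measurable m f‖ : ℂ) = θ m * pn μ p hg.measurable m f := (hθ2 m).symm
    rw [integral_const_mul, e2, pn_eq hg.measurable hpq m f, hcdef]
    ring
  have h2 : ∑ m ∈ A, ‖pn μ p hg.measurable m f‖ ≤ ∫ x, ‖f x‖ * ‖G x‖ ∂μ := by
    have e1 : ∑ m ∈ A, ‖pn μ p hg.measurable m f‖ =
        ‖((∑ m ∈ A, ‖pn μ p hg.measurable m f‖ : ℝ) : ℂ)‖ := by
      rw [Complex.norm_real, Real.norm_of_nonneg (Finset.sum_nonneg fun m _ => norm_nonneg _)]
    rw [e1, h1]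
    refine (norm_integral_le_integral_norm _).trans (le_of_eq ?_)
    apply integral_congr_ae
    exact Eventually.of_forall fun x => norm_mul _ _
  have hfm : MemLp (fun x => f x) (ENNReal.ofReal p.toReal) μ := by
    rw [ENNReal.ofReal_toReal hpt]
    exact Lp.memLp f
  have hGm : MemLp G (ENNReal.ofReal q) μ :=
    MemLp.of_bound hGmeas.aestronglyMeasurable _ (Eventually.of_forall hGb)
  have h3 := integral_mul_norm_le_Lp_mul_Lq hpq hfm hGm
  have h4 : ‖f‖ = (∫ x, ‖f x‖ ^ p.toReal ∂μ) ^ (1 / p.toReal) :=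
    norm_Lp_eq hpt f (fun x => f x) (Eventually.of_forall fun x => rfl)
  rw [← h4] at h3
  have h5 : (∫ x, ‖G x‖ ^ q ∂μ) ^ (1 / q) ≤ cst q * (A.card : ℝ) ^ (1 / q) := by
    have h6 := int_pow hg hq0 A c hc
    have h7 := one_le_cst hq0
    calc (∫ x, ‖G x‖ ^ q ∂μ) ^ (1 / q) ≤ (cst q ^ q * A.card) ^ (1 / q) := by
          apply Real.rpow_le_rpow _ h6 (by positivity)
          exact integral_nonneg fun x => Real.rpow_nonneg (norm_nonneg _) _
      _ = cst q * (A.card : ℝ) ^ (1 / q) := by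
          rw [Real.mul_rpow (by positivity) (by positivity), ← Real.rpow_mul (by linarith),
            mul_one_div_cancel hq0.ne', Real.rpow_one]
  calc ∑ m ∈ A, ‖pn μ p hg.measurable m f‖ ≤ ∫ x, ‖f x‖ * ‖G x‖ ∂μ := h2
    _ ≤ ‖f‖ * (∫ x, ‖G x‖ ^ q ∂μ) ^ (1 / q) := h3
    _ ≤ ‖f‖ * (cst q * (A.card : ℝ) ^ (1 / q)) := mul_le_mul_of_nonneg_left h5 (norm_nonneg _)
    _ = _ := mul_comm _ _

/-- The complex case. -/
theorem complex_case (hg : MeasurePreserving g μ (volume.restrict (Set.Ico (0:ℝ) 1)))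
    (h1 : 1 < p) (hpt : p ≠ ∞) {C : ℝ} (H : HB (p := p) (μ := μ) hg C) :
    ∃ N : Lp ℂ p μ → ℝ, (∀ x y, N (x + y) ≤ N x + N y) ∧ (∀ (c : ℂ) x, N (c • x) = ‖c‖ * N x) ∧
      (∃ a b : ℝ, 0 < a ∧ ∀ x, a * ‖x‖ ≤ N x ∧ N x ≤ b * ‖x‖) ∧
      ∀ (x : Lp ℂ p μ) (A : Finset ℕ),
        (∀ i ∈ A, ∀ j, j ∉ A → ‖pn μ p hg.measurable j x‖ ≤ ‖pn μ p hg.measurable i x‖) →
        ∀ (B : Finset ℕ) (b : ℕ → ℂ), B.card ≤ A.card →
          N (x - ∑ j ∈ A, pn μ p hg.measurable j x • hn μ p hg.measurable j) ≤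
          N (x - ∑ j ∈ B, b j • hn μ p hg.measurable j) := by
  have hP := P_gt p h1 hpt
  set q := Real.conjExponent p.toReal with hq
  have hpq : p.toReal.HolderConjugate q := Real.HolderConjugate.conjExponent hP
  have hq0 : 0 < q := hpq.symm.pos
  have hp0 : 0 < p.toReal := hpq.pos
  have hcp := one_le_cst hp0
  have hcq := one_le_cst hq0
  have hC := H.pos
  have hexp : 1 / q = 1 - 1 / p.toReal := by
    have := hpq.inv_add_inv_eq_one
    rw [one_div, one_div]
    linarith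
  apply renorming (e := hn μ p hg.measurable) (φ := pn μ p hg.measurable)
    (C := cst p.toReal + cst q) (δ := 1 / p.toReal) (K := C * C) (by positivity)
    (by rw [div_lt_one hp0]; exact hP) (by linarith) (by positivity) (pn_hn hg)
  · intro x t θ hθ
    have e1 : ∑ m ∈ t, θ m • (pn μ p hg.measurable m x • hn μ p hg.measurable m) =
        ∑ m ∈ t, ph μ p hg.measurable m x • (θ m • eh μ p hg.measurable m) := by
      apply Finset.sum_congr rfl
      intro m _
      rw [pn_smul_hn, smul_smul, smul_smul, mul_comm]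
    rw [e1]
    have e2 := H.mult t (fun m => ph μ p hg.measurable m x) θ 1 zero_le_one hθ
    have e3 := H.proj t x
    calc ‖∑ m ∈ t, ph μ p hg.measurable m x • (θ m • eh μ p hg.measurable m)‖
        ≤ (C * 1) * ‖∑ m ∈ t, ph μ p hg.measurable m x • eh μ p hg.measurable m‖ := e2
      _ ≤ (C * 1) * (C * ‖x‖) := mul_le_mul_of_nonneg_left e3 (by positivity)
      _ = C * C * ‖x‖ := by ring
  · intro x
    have e1 : (fun m => pn μ p hg.measurable m x • hn μ p hg.measurable m) =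
        fun m => ph μ p hg.measurable m x • eh μ p hg.measurable m :=
      funext (fun m => pn_smul_hn hg.measurable m x)
    rw [e1]
    exact H.expand x
  · intro A
    refine (demo hg hpt A).trans ?_
    apply mul_le_mul_of_nonneg_right (by linarith) (by positivity)
  · intro A x
    refine (demo_dual hg hpt hpq A x).trans ?_
    rw [hexp]
    apply mul_le_mul_of_nonneg_right _ (norm_nonneg _)
    apply mul_le_mul_of_nonneg_right (by linarith)
    apply Real.rpow_nonneg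
    positivity

end space

end Pool.Agent.NH62.Greedy
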