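import Pool.Agent.NH62.Greedy.HaarEst
import Pool.Agent.H75R3.HaarDense

/-!
# The Haar system on the unit interval
-/

set_option autoImplicit false

namespace Pool.Agent.NH62.Greedy

open Finset MeasureTheory Filter Topology H75R3
open scoped ENNReal

/-- Lebesgue measure on the unit interval. -/
noncomputable abbrev leb : Measure ℝ := volume.restrict (Set.Icc (0:ℝ) 1)

instance : IsProbabilityMeasure leb := ⟨by simp [leb]⟩

theorem leb_eq : leb = volume.restrict (Set.Ico (0:ℝ) 1) :=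
  Measure.restrict_congr_set Ico_ae_eq_Icc.symm

theorem mp_id : MeasurePreserving (fun x : ℝ => x) leb (volume.restrict (Set.Ico (0:ℝ) 1)) := by
  rw [leb_eq]
  exact MeasurePreserving.id _

theorem ae_Ico : ∀ᵐ x ∂leb, x ∈ Set.Ico (0:ℝ) 1 := by
  rw [leb_eq]
  exact ae_restrict_mem measurableSet_Ico

theorem exists_HB_unit {p : ℝ≥0∞} [Fact (1 ≤ p)] (h1 : 1 < p) (hpt : p ≠ ∞) (h2 : p ≠ 2) :
    ∃ C, HB (p := p) (μ := leb) mp_id C := by
  apply exists_HB mp_id h1 hpt h2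
  apply eh_dense mp_id hpt (fun x => x) continuous_id
  filter_upwards [ae_Ico] with x hx
  exact Int.fract_eq_self.2 hx

/-- The `j`-th Haar function, with values in `ℝ`. -/
noncomputable def haarFn (p : ℝ) (j : ℕ) (x : ℝ) : ℝ :=
  if j = 0 then (Set.Ico (0:ℝ) 1).indicator (fun _ => 1) x
  else (2:ℝ) ^ ((Nat.log 2 j : ℝ) / p) *
    ((Set.Ico (((j - 2 ^ Nat.log 2 j : ℕ) : ℝ) / 2 ^ Nat.log 2 j)
        ((((j - 2 ^ Nat.log 2 j : ℕ) : ℝ) + 1 / 2) / 2 ^ Nat.log 2 j)).indicator (fun _ => 1) x -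
      (Set.Ico ((((j - 2 ^ Nat.log 2 j : ℕ) : ℝ) + 1 / 2) / 2 ^ Nat.log 2 j)
        ((((j - 2 ^ Nat.log 2 j : ℕ) : ℝ) + 1) / 2 ^ Nat.log 2 j)).indicator (fun _ => 1) x)

theorem haarFn_meas (p : ℝ) (j : ℕ) : Measurable (haarFn p j) := by
  unfold haarFn
  split_ifs
  · exact measurable_const.indicator measurableSet_Ico
  · apply Measurable.const_mul
    exact (measurable_const.indicator measurableSet_Ico).sub
      (measurable_const.indicator measurableSet_Ico)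

theorem haarFn_bound (p : ℝ) (j : ℕ) (x : ℝ) :
    ‖haarFn p j x‖ ≤ 1 + 2 * (2:ℝ) ^ ((Nat.log 2 j : ℝ) / p) := by
  have h0 : 0 ≤ (2:ℝ) ^ ((Nat.log 2 j : ℝ) / p) := by positivity
  have h1 : ∀ (s : Set ℝ), 0 ≤ s.indicator (fun _ => (1:ℝ)) x ∧ s.indicator (fun _ => (1:ℝ)) x ≤ 1 := by
    intro s
    by_cases hx : x ∈ s
    · rw [Set.indicator_of_mem hx]; norm_num
    · rw [Set.indicator_of_notMem hx]; norm_num
  unfold haarFn
  split_ifs
  · rw [Real.norm_eq_abs, abs_le]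
    have := h1 (Set.Ico (0:ℝ) 1)
    constructor <;> nlinarith
  · rw [norm_mul, Real.norm_of_nonneg h0, Real.norm_eq_abs]
    have h2 : ∀ (s t : Set ℝ), |s.indicator (fun _ => (1:ℝ)) x - t.indicator (fun _ => (1:ℝ)) x| ≤ 1 := by
      intro s t
      rw [abs_le]
      have := h1 s
      have := h1 t
      constructor <;> linarith
    have := h2 (Set.Ico (((j - 2 ^ Nat.log 2 j : ℕ) : ℝ) / 2 ^ Nat.log 2 j)
        ((((j - 2 ^ Nat.log 2 j : ℕ) : ℝ) + 1 / 2) / 2 ^ Nat.log 2 j))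
      (Set.Ico ((((j - 2 ^ Nat.log 2 j : ℕ) : ℝ) + 1 / 2) / 2 ^ Nat.log 2 j)
        ((((j - 2 ^ Nat.log 2 j : ℕ) : ℝ) + 1) / 2 ^ Nat.log 2 j))
    nlinarith

theorem floor_eq_iff_Ico {y : ℝ} (hy : 0 ≤ y) (k : ℕ) : ⌊y⌋₊ = k ↔ (k : ℝ) ≤ y ∧ y < k + 1 :=
  Nat.floor_eq_iff hy

/-- Comparison with the periodic Haar functions. -/
theorem haarFn_eq {p : ℝ} (j : ℕ) {x : ℝ} (hx : x ∈ Set.Ico (0:ℝ) 1) :
    (haarFn p j x : ℂ) = ((wt j ^ (1 / p) : ℝ) : ℂ) * hr j x := by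
  rcases Nat.eq_zero_or_pos j with h0 | h0
  · subst h0
    unfold haarFn
    rw [if_pos rfl, Set.indicator_of_mem hx, wt_zero, Real.one_rpow, hr_zero]
    simp
  · set n := Nat.log 2 j with hn
    have hjL : j ∈ L n := by
      rw [mem_L]
      exact ⟨Nat.pow_log_le_self 2 (by omega), Nat.lt_pow_succ_log_self (by norm_num) j⟩
    obtain ⟨hj1, hj2⟩ := mem_L.1 hjL
    set k := j - 2 ^ n with hk
    have hjk : j = 2 ^ n + k := by omega
    have hfr : Int.fract x = x := Int.fract_eq_self.2 hx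
    have h2n : (0:ℝ) < 2 ^ n := by positivity
    have hy0 : 0 ≤ (2:ℝ) ^ n * x := mul_nonneg h2n.le hx.1
    have hy1 : 0 ≤ (2:ℝ) ^ (n + 1) * x := mul_nonneg (by positivity) hx.1
    have e1 : nd n x = j ↔ (k:ℝ) ≤ 2 ^ n * x ∧ 2 ^ n * x < k + 1 := by
      unfold nd
      rw [hfr, ← Nat.floor_eq_iff hy0]
      omega
    have e2 : nd (n + 1) x = 2 * j ↔
        ((2 * k : ℕ) : ℝ) ≤ 2 ^ (n + 1) * x ∧ 2 ^ (n + 1) * x < ((2 * k : ℕ) : ℝ) + 1 := by
      unfold nd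
      rw [hfr, ← Nat.floor_eq_iff hy1, pow_succ]
      omega
    have hw : wt j ^ (1 / p) = (2:ℝ) ^ ((n:ℝ) / p) := by
      unfold wt
      rw [if_neg (by omega), ← hn, ← Real.rpow_natCast, ← Real.rpow_mul (by norm_num)]
      congr 1
      ring
    have hF : haarFn p j x = (2:ℝ) ^ ((n:ℝ) / p) *
        ((Set.Ico ((k : ℝ) / 2 ^ n) (((k : ℝ) + 1 / 2) / 2 ^ n)).indicator (fun _ => 1) x -
        (Set.Ico (((k : ℝ) + 1 / 2) / 2 ^ n) (((k : ℝ) + 1) / 2 ^ n)).indicator (fun _ => 1) x) := by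
      unfold haarFn
      rw [if_neg (by omega)]
    rw [hF, hr_L hjL, hw, Complex.ofReal_mul]
    congr 1
    have hmem1 : x ∈ Set.Ico ((k : ℝ) / 2 ^ n) (((k : ℝ) + 1 / 2) / 2 ^ n) ↔
        (k:ℝ) ≤ 2 ^ n * x ∧ 2 ^ n * x < k + 1 / 2 := by
      rw [Set.mem_Ico, div_le_iff₀ h2n, lt_div_iff₀ h2n, mul_comm x]
    have hmem2 : x ∈ Set.Ico (((k : ℝ) + 1 / 2) / 2 ^ n) (((k : ℝ) + 1) / 2 ^ n) ↔
        (k:ℝ) + 1 / 2 ≤ 2 ^ n * x ∧ 2 ^ n * x < k + 1 := by
      rw [Set.mem_Ico, div_le_iff₀ h2n, lt_div_iff₀ h2n, mul_comm x]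
    have e3 : (2:ℝ) ^ (n + 1) * x = 2 * (2 ^ n * x) := by rw [pow_succ]; ring
    rw [e3] at e2
    push_cast at e2
    by_cases ha : (k:ℝ) ≤ 2 ^ n * x ∧ 2 ^ n * x < k + 1
    · rw [if_pos (e1.2 ha)]
      by_cases hb : 2 ^ n * x < (k:ℝ) + 1 / 2
      · rw [Set.indicator_of_mem (hmem1.2 ⟨ha.1, hb⟩), Set.indicator_of_notMem, if_pos]
        · simp
        · rw [e2]
          constructor <;> linarith [ha.1]
        · rw [hmem2]
          intro h
          linarith [h.1]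
      · rw [Set.indicator_of_mem (hmem2.2 ⟨not_lt.1 hb, ha.2⟩), Set.indicator_of_notMem, if_neg]
        · simp
        · rw [e2]
          intro h
          apply hb
          linarith [h.2]
        · rw [hmem1]
          intro h
          exact hb h.2
    · rw [if_neg (fun h => ha (e1.1 h)), Set.indicator_of_notMem, Set.indicator_of_notMem]
      · simp
      · rw [hmem2]
        intro h
        apply ha
        constructor <;> linarith [h.1, h.2]
      · rw [hmem1]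
        intro h
        apply ha
        constructor <;> linarith [h.1, h.2]

end Pool.Agent.NH62.Greedy
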