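import Mathlib

/-!
# The combinatorial core: a norm on sequences with property (A) with constant one

`F` is a family of nonnegative sequences, closed under truncation, with
`∑_{m ∈ D} f m ≤ C |D| ^ δ` for all finite sets `D`.
-/

set_option autoImplicit false

namespace Pool.Agent.NH62.Greedy

open Finset

/-- The value of the functional attached to `(S, f, t)` on the sequence `u`. -/
noncomputable def val (δ ε : ℝ) (S : Finset ℕ) (f : ℕ → ℝ) (t : Finset ℕ) (u : ℕ → ℝ) : ℝ :=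
  (S.card : ℝ) ^ (δ - 1) * ∑ m ∈ S, u m + ε * ∑ m ∈ t \ S, f m * u m

/-- Admissible families of weights. -/
structure Fam (C δ : ℝ) (F : Set (ℕ → ℝ)) : Prop where
  nonneg : ∀ f ∈ F, ∀ m, 0 ≤ f m
  trunc : ∀ f ∈ F, ∀ c : ℝ, 0 ≤ c → (fun m => min (f m) c) ∈ F
  card : ∀ f ∈ F, ∀ D : Finset ℕ, ∑ m ∈ D, f m ≤ C * (D.card : ℝ) ^ δ

/-- Admissible pairs `(S, f)`. -/
def Adm (C δ : ℝ) (F : Set (ℕ → ℝ)) (S : Finset ℕ) (f : ℕ → ℝ) : Prop :=
  f ∈ F ∧ ∀ m, f m ≤ C * ((S.card : ℝ) + 1) ^ (δ - 1)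

theorem rpow_tangent {δ : ℝ} (h0 : 0 < δ) (h1 : δ < 1) (k : ℝ) (hk : 0 ≤ k) :
    δ * (k + 1) ^ (δ - 1) ≤ (k + 1) ^ δ - k ^ δ := by
  have hk1 : 0 < k + 1 := by linarith
  -- Bernoulli: (k/(k+1))^δ ≤ 1 - δ/(k+1)
  have h2 : (1 + (-1 / (k + 1))) ^ δ ≤ 1 + δ * (-1 / (k + 1)) :=
    rpow_one_add_le_one_add_mul_self (by
      rw [div_eq_mul_inv, neg_one_mul, neg_le_neg_iff]
      exact inv_le_one_of_one_le₀ (by linarith)) h0.le h1.le
  have h3 : 1 + (-1 / (k + 1)) = k / (k + 1) := by field_simp; ring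
  rw [h3, Real.div_rpow hk hk1.le] at h2
  have h4 : 0 < (k + 1) ^ δ := Real.rpow_pos_of_pos hk1 _
  rw [div_le_iff₀ h4] at h2
  have h5 : (k + 1) ^ (δ - 1) = (k + 1) ^ δ / (k + 1) := by
    rw [Real.rpow_sub_one hk1.ne']
  rw [h5]
  have h6 : (1 + δ * (-1 / (k + 1))) * (k + 1) ^ δ = (k + 1) ^ δ - δ * ((k + 1) ^ δ / (k + 1)) := by
    field_simp
    ring
  rw [h6] at h2
  linarith

theorem rpow_diff {δ : ℝ} (_h0 : 0 < δ) (h1 : δ < 1) (k : ℝ) (hk : 0 ≤ k) :
    (k + 2) * ((k + 1) ^ (δ - 1) - (k + 2) ^ (δ - 1)) ≤ 2 * (k + 1) ^ (δ - 1) := by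
  have hk1 : 0 < k + 1 := by linarith
  have hk2 : 0 < k + 2 := by linarith
  have ha : 0 < (k + 1) ^ (δ - 1) := Real.rpow_pos_of_pos hk1 _
  -- (k+2)^(δ-1) ≥ (k+2)^(-1) (k+1)^δ ... use (k+2)^δ ≥ (k+1)^δ
  have h2 : (k + 1) ^ δ ≤ (k + 2) ^ δ := Real.rpow_le_rpow hk1.le (by linarith) _h0.le
  have h3 : (k + 2) * (k + 2) ^ (δ - 1) = (k + 2) ^ δ := by
    rw [Real.rpow_sub_one hk2.ne']; field_simp
  have h4 : (k + 1) * (k + 1) ^ (δ - 1) = (k + 1) ^ δ := by
    rw [Real.rpow_sub_one hk1.ne']; field_simp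
  have h5 : (k + 2) * ((k + 1) ^ (δ - 1) - (k + 2) ^ (δ - 1)) =
      (k + 1) * (k + 1) ^ (δ - 1) + (k + 1) ^ (δ - 1) - (k + 2) * (k + 2) ^ (δ - 1) := by ring
  rw [h5, h3, h4]
  linarith

variable {C δ : ℝ} {F : Set (ℕ → ℝ)}

theorem card_rpow_anti (h1 : δ < 1) {a b : ℕ} (ha : 0 < a) (hab : a ≤ b) :
    (b : ℝ) ^ (δ - 1) ≤ (a : ℝ) ^ (δ - 1) := by
  apply Real.rpow_le_rpow_of_nonpos
  · exact_mod_cast ha
  · exact_mod_cast hab
  · linarith

/-- Number of large values. -/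
theorem card_large (hC : 0 < C) (_h0 : 0 < δ) (h1 : δ < 1) (hF : Fam C δ F) {f : ℕ → ℝ} (hf : f ∈ F)
    (k : ℕ) (D : Finset ℕ) (hD : ∀ m ∈ D, C * ((k : ℝ) + 2) ^ (δ - 1) < f m) :
    (D.card : ℝ) ≤ (k : ℝ) + 2 := by
  by_contra hlt
  push Not at hlt
  have hk2 : (0 : ℝ) < (k : ℝ) + 2 := by positivity
  have hDpos : (0 : ℝ) < D.card := lt_trans hk2 hlt
  have hcard := hF.card f hf D
  have hsum : (D.card : ℝ) * (C * ((k : ℝ) + 2) ^ (δ - 1)) ≤ ∑ m ∈ D, f m := by
    rw [← nsmul_eq_mul]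
    exact Finset.card_nsmul_le_sum _ _ _ (fun m hm => (hD m hm).le)
  have h3 : (D.card : ℝ) * ((k : ℝ) + 2) ^ (δ - 1) ≤ (D.card : ℝ) ^ δ := by
    have h4 : C * ((D.card : ℝ) * ((k : ℝ) + 2) ^ (δ - 1)) ≤ C * (D.card : ℝ) ^ δ := by
      calc C * ((D.card : ℝ) * ((k : ℝ) + 2) ^ (δ - 1))
          = (D.card : ℝ) * (C * ((k : ℝ) + 2) ^ (δ - 1)) := by ring
        _ ≤ _ := hsum.trans hcard
    exact le_of_mul_le_mul_left h4 hC
  have h5 : (D.card : ℝ) ^ δ = (D.card : ℝ) * (D.card : ℝ) ^ (δ - 1) := by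
    rw [Real.rpow_sub_one hDpos.ne']; field_simp
  rw [h5] at h3
  have h6 : ((k : ℝ) + 2) ^ (δ - 1) ≤ (D.card : ℝ) ^ (δ - 1) := le_of_mul_le_mul_left h3 hDpos
  have h7 : (D.card : ℝ) ^ (δ - 1) < ((k : ℝ) + 2) ^ (δ - 1) :=
    Real.rpow_lt_rpow_of_neg hk2 hlt (by linarith)
  linarith

/-- One more index can be absorbed. -/
theorem absorb (hC : 0 < C) (h0 : 0 < δ) (h1 : δ < 1) (hF : Fam C δ F) {S : Finset ℕ} {f : ℕ → ℝ}
    (hA : Adm C δ F S f) (t : Finset ℕ) {u : ℕ → ℝ} {τ : ℝ} (hu0 : ∀ m, 0 ≤ u m)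
    (hu : ∀ m, u m ≤ τ) {n : ℕ} (hn : n ∉ S) (hun : u n = τ) :
    ∃ f', Adm C δ F (insert n S) f' ∧
      val δ (δ / (3 * C)) S f t u ≤ val δ (δ / (3 * C)) (insert n S) f' t u := by
  have hτ : 0 ≤ τ := (hu0 n).trans (hu n)
  set k := S.card with hk
  set ε := δ / (3 * C) with hε
  have hε0 : 0 < ε := by positivity
  have hcard : (insert n S).card = k + 1 := Finset.card_insert_of_notMem hn
  set c' := C * ((k : ℝ) + 2) ^ (δ - 1) with hc'
  have hk0 : (0 : ℝ) ≤ k := Nat.cast_nonneg k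
  have hc'0 : 0 ≤ c' := by positivity
  refine ⟨fun m => min (f m) c', ⟨hF.trunc f hA.1 c' hc'0, ?_⟩, ?_⟩
  · intro m
    rw [hcard]
    push_cast
    have : (k : ℝ) + 1 + 1 = (k : ℝ) + 2 := by ring
    rw [this]
    exact min_le_right _ _
  · have hf0 := hF.nonneg f hA.1
    -- the loss
    have hloss : ∑ m ∈ t \ S, f m * u m ≤ ∑ m ∈ t \ insert n S, min (f m) c' * u m +
        C * ((k : ℝ) + 1) ^ (δ - 1) * τ +
        ((k : ℝ) + 2) * (C * ((k : ℝ) + 1) ^ (δ - 1) - c') * τ := by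
      -- split off n
      have e1 : ∑ m ∈ t \ S, f m * u m ≤ ∑ m ∈ t \ insert n S, f m * u m + f n * τ := by
        have hsub : t \ S ⊆ insert n (t \ insert n S) := by
          intro m hm
          rw [mem_sdiff] at hm
          by_cases hmn : m = n
          · rw [hmn]; exact mem_insert_self _ _
          · apply mem_insert_of_mem
            rw [mem_sdiff, mem_insert]
            exact ⟨hm.1, fun h => h.elim hmn hm.2⟩
        calc ∑ m ∈ t \ S, f m * u m ≤ ∑ m ∈ insert n (t \ insert n S), f m * u m :=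
              Finset.sum_le_sum_of_subset_of_nonneg hsub
                (fun m _ _ => mul_nonneg (hf0 m) (hu0 m))
          _ = f n * u n + ∑ m ∈ t \ insert n S, f m * u m := by
              rw [Finset.sum_insert]
              rw [mem_sdiff]
              exact fun h => h.2 (mem_insert_self _ _)
          _ = _ := by rw [hun]; ring
      have e2 : f n * τ ≤ C * ((k : ℝ) + 1) ^ (δ - 1) * τ :=
        mul_le_mul_of_nonneg_right (hA.2 n) hτ
      have e3 : ∑ m ∈ t \ insert n S, f m * u m ≤ ∑ m ∈ t \ insert n S, min (f m) c' * u m +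
          ((k : ℝ) + 2) * (C * ((k : ℝ) + 1) ^ (δ - 1) - c') * τ := by
        set T := t \ insert n S with hT
        set D := T.filter (fun m => c' < f m) with hD
        have hDcard : (D.card : ℝ) ≤ (k : ℝ) + 2 :=
          card_large hC h0 h1 hF hA.1 k D (fun m hm => (Finset.mem_filter.1 hm).2)
        have e4 : ∑ m ∈ T, f m * u m - ∑ m ∈ T, min (f m) c' * u m =
            ∑ m ∈ T, (f m - min (f m) c') * u m := by
          rw [← Finset.sum_sub_distrib]
          exact Finset.sum_congr rfl (fun m _ => by ring)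
        have e5 : ∑ m ∈ T, (f m - min (f m) c') * u m =
            ∑ m ∈ D, (f m - min (f m) c') * u m := by
          symm
          apply Finset.sum_subset (Finset.filter_subset _ _)
          intro m hm hmD
          have : f m ≤ c' := by
            by_contra h
            push Not at h
            exact hmD (Finset.mem_filter.2 ⟨hm, h⟩)
          rw [min_eq_left this]; ring
        have hmono : c' ≤ C * ((k : ℝ) + 1) ^ (δ - 1) := by
          apply mul_le_mul_of_nonneg_left _ hC.le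
          apply Real.rpow_le_rpow_of_nonpos
          · positivity
          · linarith
          · linarith
        have e6 : ∑ m ∈ D, (f m - min (f m) c') * u m ≤
            ∑ m ∈ D, (C * ((k : ℝ) + 1) ^ (δ - 1) - c') * τ := by
          apply Finset.sum_le_sum
          intro m hm
          have h7 : c' < f m := (Finset.mem_filter.1 hm).2
          rw [min_eq_right h7.le]
          apply mul_le_mul
          · have := hA.2 m
            linarith
          · exact hu m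
          · exact hu0 m
          · linarith
        rw [Finset.sum_const, nsmul_eq_mul] at e6
        have e7 : (D.card : ℝ) * ((C * ((k : ℝ) + 1) ^ (δ - 1) - c') * τ) ≤
            ((k : ℝ) + 2) * ((C * ((k : ℝ) + 1) ^ (δ - 1) - c') * τ) := by
          apply mul_le_mul_of_nonneg_right hDcard
          apply mul_nonneg _ hτ
          linarith
        linarith [e4, e5, e6, e7]
      linarith
    -- the gain
    have hσ : ∑ m ∈ S, u m ≤ k * τ := by
      calc ∑ m ∈ S, u m ≤ ∑ m ∈ S, τ := Finset.sum_le_sum (fun m _ => hu m)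
        _ = k * τ := by rw [Finset.sum_const, nsmul_eq_mul]
    have hσ0 : 0 ≤ ∑ m ∈ S, u m := Finset.sum_nonneg (fun m _ => hu0 m)
    have hgain : (k : ℝ) ^ (δ - 1) * ∑ m ∈ S, u m + ((k + 1 : ℝ) ^ δ - (k : ℝ) ^ δ) * τ ≤
        ((k : ℝ) + 1) ^ (δ - 1) * (τ + ∑ m ∈ S, u m) := by
      have hk1 : (0 : ℝ) < (k : ℝ) + 1 := by positivity
      have a1 : ((k : ℝ) + 1) ^ δ = ((k : ℝ) + 1) * ((k : ℝ) + 1) ^ (δ - 1) := by
        rw [Real.rpow_sub_one hk1.ne']; field_simp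
      rcases Nat.eq_zero_or_pos k with hz | hz
      · have hS : S = ∅ := Finset.card_eq_zero.1 hz
        rw [hS]
        simp only [Finset.sum_empty, mul_zero, add_zero, zero_add, hz, Nat.cast_zero]
        rw [Real.zero_rpow h0.ne']
        simp
      · have hkp : (0 : ℝ) < k := by exact_mod_cast hz
        have a2 : (k : ℝ) ^ δ = (k : ℝ) * (k : ℝ) ^ (δ - 1) := by
          rw [Real.rpow_sub_one hkp.ne']; field_simp
        have a3 : ((k : ℝ) + 1) ^ (δ - 1) ≤ (k : ℝ) ^ (δ - 1) := by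
          apply Real.rpow_le_rpow_of_nonpos hkp (by linarith) (by linarith)
        rw [a1, a2]
        nlinarith [mul_le_mul_of_nonneg_left hσ (sub_nonneg.2 a3)]
    have hg1 := rpow_tangent h0 h1 (k : ℝ) hk0
    have hg2 := rpow_diff h0 h1 (k : ℝ) hk0
    unfold val
    rw [hcard, Finset.sum_insert hn, hun]
    push_cast
    have hεC : ε * C = δ / 3 := by rw [hε]; field_simp
    have hloss' := mul_le_mul_of_nonneg_left hloss hε0.le
    have e8 : ε * (C * ((k : ℝ) + 1) ^ (δ - 1) * τ) = δ / 3 * (((k : ℝ) + 1) ^ (δ - 1) * τ) := by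
      rw [← hεC]; ring
    have e9 : ε * (((k : ℝ) + 2) * (C * ((k : ℝ) + 1) ^ (δ - 1) - c') * τ) =
        δ / 3 * (((k : ℝ) + 2) * (((k : ℝ) + 1) ^ (δ - 1) - ((k : ℝ) + 2) ^ (δ - 1))) * τ := by
      rw [← hεC, hc']; ring
    have e10 : δ / 3 * (((k : ℝ) + 2) * (((k : ℝ) + 1) ^ (δ - 1) - ((k : ℝ) + 2) ^ (δ - 1))) * τ ≤
        δ / 3 * (2 * ((k : ℝ) + 1) ^ (δ - 1)) * τ := by
      apply mul_le_mul_of_nonneg_right _ hτ
      apply mul_le_mul_of_nonneg_left hg2 (by positivity)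
    have e11 : δ * ((k : ℝ) + 1) ^ (δ - 1) * τ ≤ ((k + 1 : ℝ) ^ δ - (k : ℝ) ^ δ) * τ :=
      mul_le_mul_of_nonneg_right hg1 hτ
    linarith

/-- A set on which `u` is maximal can be absorbed. -/
theorem absorb_set (hC : 0 < C) (h0 : 0 < δ) (h1 : δ < 1) (hF : Fam C δ F) (t : Finset ℕ)
    {u : ℕ → ℝ} {τ : ℝ} (hu0 : ∀ m, 0 ≤ u m) (hu : ∀ m, u m ≤ τ) (D : Finset ℕ) :
    ∀ {S : Finset ℕ} {f : ℕ → ℝ}, Adm C δ F S f → (∀ n ∈ D, u n = τ) →
    ∃ f', Adm C δ F (S ∪ D) f' ∧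
      val δ (δ / (3 * C)) S f t u ≤ val δ (δ / (3 * C)) (S ∪ D) f' t u := by
  induction D using Finset.induction_on with
  | empty =>
    intro S f hA _
    rw [Finset.union_empty]
    exact ⟨f, hA, le_rfl⟩
  | insert n D hn ih =>
    intro S f hA hD
    obtain ⟨f1, hA1, h2⟩ := ih hA (fun m hm => hD m (mem_insert_of_mem hm))
    by_cases hnS : n ∈ S ∪ D
    · have : S ∪ insert n D = S ∪ D := by
        rw [Finset.union_insert, Finset.insert_eq_of_mem hnS]
      rw [this]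
      exact ⟨f1, hA1, h2⟩
    · obtain ⟨f2, hA2, h3⟩ := absorb hC h0 h1 hF hA1 t hu0 hu hnS (hD n (mem_insert_self _ _))
      rw [Finset.union_insert]
      exact ⟨f2, hA2, h2.trans h3⟩

/-- Indices where `u` vanishes can be dropped. -/
theorem drop (hC : 0 < C) (h0 : 0 < δ) (h1 : δ < 1) (hF : Fam C δ F) (t Z : Finset ℕ)
    {u : ℕ → ℝ} (hu0 : ∀ m, 0 ≤ u m) {S : Finset ℕ} {f : ℕ → ℝ} (hA : Adm C δ F S f)
    (hZ : ∀ n ∈ Z, u n = 0) :
    Adm C δ F (S \ Z) f ∧
      val δ (δ / (3 * C)) S f t u ≤ val δ (δ / (3 * C)) (S \ Z) f t u := by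
  have hle : (S \ Z).card ≤ S.card := Finset.card_le_card sdiff_subset
  have hf0 := hF.nonneg f hA.1
  refine ⟨⟨hA.1, fun m => (hA.2 m).trans ?_⟩, ?_⟩
  · apply mul_le_mul_of_nonneg_left _ hC.le
    apply Real.rpow_le_rpow_of_nonpos
    · positivity
    · have : ((S \ Z).card : ℝ) ≤ S.card := by exact_mod_cast hle
      linarith
    · linarith
  · unfold val
    have e1 : ∑ m ∈ S, u m = ∑ m ∈ S \ Z, u m := by
      symm
      apply Finset.sum_subset sdiff_subset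
      intro m hm hmZ
      apply hZ
      by_contra h
      exact hmZ (mem_sdiff.2 ⟨hm, h⟩)
    rw [e1]
    apply add_le_add
    · rcases Nat.eq_zero_or_pos (S \ Z).card with hz | hz
      · have : S \ Z = ∅ := Finset.card_eq_zero.1 hz
        rw [this]; simp
      · apply mul_le_mul_of_nonneg_right (card_rpow_anti h1 hz hle)
        exact Finset.sum_nonneg (fun m _ => hu0 m)
    · apply mul_le_mul_of_nonneg_left _ (by positivity)
      apply Finset.sum_le_sum_of_subset_of_nonneg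
      · exact sdiff_subset_sdiff (Subset.refl _) sdiff_subset
      · intro m _ _
        exact mul_nonneg (hf0 m) (hu0 m)

/-- Monotonicity in `u`. -/
theorem val_mono (hδ : 0 < δ) (hC : 0 < C) (hF : Fam C δ F) (S t : Finset ℕ) {f : ℕ → ℝ}
    (hf : f ∈ F) {u v : ℕ → ℝ} (huv : ∀ m, u m ≤ v m) :
    val δ (δ / (3 * C)) S f t u ≤ val δ (δ / (3 * C)) S f t v := by
  unfold val
  apply add_le_add
  · apply mul_le_mul_of_nonneg_left
    · exact Finset.sum_le_sum (fun m _ => huv m)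
    · positivity
  · apply mul_le_mul_of_nonneg_left
    · exact Finset.sum_le_sum (fun m _ => mul_le_mul_of_nonneg_left (huv m) (hF.nonneg f hf m))
    · positivity

/-- Property (A) with constant one. -/
theorem exchange (hC : 0 < C) (h0 : 0 < δ) (h1 : δ < 1) (hF : Fam C δ F) (t : Finset ℕ)
    {u v : ℕ → ℝ} {τ : ℝ} (hu0 : ∀ m, 0 ≤ u m) (hv0 : ∀ m, 0 ≤ v m) (hu : ∀ m, u m ≤ τ)
    (D1 D2 : Finset ℕ) (hcard : D2.card ≤ D1.card)
    (h2 : ∀ m ∈ D2, u m = τ) (h3 : ∀ m ∈ D1, u m = 0) (h4 : ∀ m ∈ D1, τ ≤ v m)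
    (h5 : ∀ m, m ∉ D2 → u m ≤ v m)
    {S : Finset ℕ} {f : ℕ → ℝ} (hA : Adm C δ F S f) :
    ∃ S' f' , Adm C δ F S' f' ∧
      val δ (δ / (3 * C)) S f t u ≤ val δ (δ / (3 * C)) S' f' t v := by
  classical
  obtain ⟨f1, hA1, e1⟩ := absorb_set hC h0 h1 hF t hu0 hu D2 hA h2
  -- degenerate case
  by_cases hτ : τ = 0
  · refine ⟨S, f, hA, val_mono h0 hC hF S t hA.1 (fun m => ?_)⟩
    have := hu m
    rw [hτ] at this
    exact this.trans (hv0 m)
  have hdisj : Disjoint D1 D2 := by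
    rw [Finset.disjoint_left]
    intro m hm1 hm2
    exact hτ ((h2 m hm2).symm.trans (h3 m hm1))
  obtain ⟨hA2, e2⟩ := drop hC h0 h1 hF t D1 hu0 hA1 h3
  obtain ⟨E, hE1, hE2⟩ := Finset.exists_subset_card_eq hcard
  set S1 := (S ∪ D2) \ D1 with hS1
  have hD2S1 : D2 ⊆ S1 := by
    intro m hm
    rw [hS1, mem_sdiff]
    exact ⟨mem_union_right _ hm, fun h => (Finset.disjoint_left.1 hdisj) h hm⟩
  have hES1 : Disjoint E S1 := by
    rw [Finset.disjoint_left]
    intro m hm hmS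
    exact (mem_sdiff.1 hmS).2 (hE1 hm)
  set S2 := (S1 \ D2) ∪ E with hS2
  have hdE : Disjoint (S1 \ D2) E := by
    rw [Finset.disjoint_left]
    intro m hm hmE
    exact (Finset.disjoint_left.1 hES1) hmE (mem_sdiff.1 hm).1
  have hcS2 : S2.card = S1.card := by
    rw [hS2, Finset.card_union_of_disjoint hdE, Finset.card_sdiff_of_subset hD2S1, hE2]
    have := Finset.card_le_card hD2S1
    omega
  refine ⟨S2, f1, ⟨hA2.1, by rw [hcS2]; exact hA2.2⟩, e1.trans (e2.trans ?_)⟩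
  unfold val
  rw [hcS2]
  have hf0 := hF.nonneg f1 hA2.1
  apply add_le_add
  · apply mul_le_mul_of_nonneg_left _ (by positivity)
    have s1 : ∑ m ∈ S1, u m = ∑ m ∈ S1 \ D2, u m + ∑ m ∈ D2, u m :=
      (Finset.sum_sdiff hD2S1).symm
    rw [s1, hS2, Finset.sum_union hdE]
    apply add_le_add
    · exact Finset.sum_le_sum (fun m hm => h5 m (mem_sdiff.1 hm).2)
    · calc ∑ m ∈ D2, u m = ∑ m ∈ D2, τ := Finset.sum_congr rfl h2
        _ = ∑ m ∈ E, τ := by rw [Finset.sum_const, Finset.sum_const, hE2]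
        _ ≤ ∑ m ∈ E, v m := Finset.sum_le_sum (fun m hm => h4 m (hE1 hm))
  · apply mul_le_mul_of_nonneg_left _ (by positivity)
    -- remove the indices in E from the left sum
    have s2 : ∑ m ∈ t \ S1, f1 m * u m = ∑ m ∈ (t \ S1) \ E, f1 m * u m := by
      symm
      apply Finset.sum_subset sdiff_subset
      intro m hm hmE
      have : m ∈ E := by
        by_contra h
        exact hmE (mem_sdiff.2 ⟨hm, h⟩)
      rw [h3 m (hE1 this), mul_zero]
    rw [s2]
    calc ∑ m ∈ (t \ S1) \ E, f1 m * u m ≤ ∑ m ∈ (t \ S1) \ E, f1 m * v m := by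
          apply Finset.sum_le_sum
          intro m hm
          apply mul_le_mul_of_nonneg_left _ (hf0 m)
          apply h5
          intro h
          exact (mem_sdiff.1 (mem_sdiff.1 hm).1).2 (hD2S1 h)
      _ ≤ ∑ m ∈ t \ S2, f1 m * v m := by
          apply Finset.sum_le_sum_of_subset_of_nonneg
          · intro m hm
            rw [mem_sdiff, mem_sdiff] at hm
            rw [mem_sdiff, hS2, mem_union, mem_sdiff]
            exact ⟨hm.1.1, fun h => h.elim (fun h' => hm.1.2 h'.1) hm.2⟩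
          · intro m _ _
            exact mul_nonneg (hf0 m) (hv0 m)

end Pool.Agent.NH62.Greedy
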